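import Mathlib

/-!
# Areas of pieces of planes in `ℝ³`, the cross product, and Hlawka's inequality
-/

set_option autoImplicit false

open MeasureTheory Set
open scoped ENNReal

namespace Pool.Agent.N777.Aff

/-- Euclidean space. -/
abbrev E (n : ℕ) : Type := EuclideanSpace ℝ (Fin n)

/-- vectors of `ℝ³` -/
def vec (a b c : ℝ) : E 3 := WithLp.toLp 2 ![a, b, c]

@[simp] theorem vec_0 (a b c : ℝ) : vec a b c 0 = a := rfl
@[simp] theorem vec_1 (a b c : ℝ) : vec a b c 1 = b := rfl
@[simp] theorem vec_2 (a b c : ℝ) : vec a b c 2 = c := rfl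

theorem ext3 {x y : E 3} (h0 : x 0 = y 0) (h1 : x 1 = y 1) (h2 : x 2 = y 2) : x = y := by
  ext i
  fin_cases i
  · exact h0
  · exact h1
  · exact h2

/-- the cross product -/
def cr (u v : E 3) : E 3 := vec (u 1 * v 2 - u 2 * v 1) (u 2 * v 0 - u 0 * v 2) (u 0 * v 1 - u 1 * v 0)

theorem cr_norm (u v : E 3) : ‖cr u v‖ ^ 2 = ‖u‖ ^ 2 * ‖v‖ ^ 2 - inner ℝ u v ^ 2 := by
  simp only [EuclideanSpace.norm_sq_eq, Real.norm_eq_abs, sq_abs, Fin.sum_univ_three, PiLp.inner_apply, cr,
    vec_0, vec_1, vec_2, RCLike.inner_apply, conj_trivial]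
  ring

theorem nd2 {n : ℕ} (u v : E n) (f : E 2 →ₗ[ℝ] E n) (h0 : f (EuclideanSpace.single 0 1) = u)
    (h1 : f (EuclideanSpace.single 1 1) = v) :
    f.normDet ^ 2 = ‖u‖ ^ 2 * ‖v‖ ^ 2 - inner ℝ u v ^ 2 := by
  have := f.normDet_sq_eq_det_gram (EuclideanSpace.basisFun (Fin 2) ℝ)
  simp only [RCLike.ofReal_real_eq_id, id_eq] at this
  rw [this]
  have h2 := Matrix.det_fin_two (Matrix.gram ℝ fun x => f ((EuclideanSpace.basisFun (Fin 2) ℝ) x))
  convert h2 using 1
  simp [Matrix.gram, h0, h1, real_inner_comm]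
  ring

/-- the affine map with given directions -/
def para (p u v : E 3) (y : E 2) : E 3 := p + (y 0 • u + y 1 • v)

theorem area_para (p u v : E 3) (D : Set (E 2)) :
    μHE[2] (para p u v '' D) = ENNReal.ofReal ‖cr u v‖ * volume D := by
  let f : E 2 →ₗ[ℝ] E 3 :=
    { toFun := fun y => y 0 • u + y 1 • v
      map_add' := by
        intro x y
        simp only [PiLp.add_apply, add_smul]
        abel
      map_smul' := by
        intro c x
        simp only [PiLp.smul_apply, smul_eq_mul, RingHom.id_apply, smul_add, smul_smul] }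
  have hf : ∀ y : E 2, f y = y 0 • u + y 1 • v := fun y => rfl
  have h1 : para p u v '' D = (fun x : E 3 => p + x) '' (f '' D) := by
    rw [image_image]
    rfl
  rw [h1, (isometry_add_left p).euclideanHausdorffMeasure_image]
  have h2 := f.euclideanHausdorffMeasure_image_eq_normDet_mul_volume D
  rw [finrank_euclideanSpace_fin] at h2
  rw [h2]
  have h3 := nd2 u v f (by simp [hf]) (by simp [hf])
  rw [← cr_norm] at h3
  have h4 := (pow_left_inj₀ f.normDet_nonneg (norm_nonneg _) two_ne_zero).1 h3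
  rw [h4]

/-! ### Plane domains -/

/-- the coordinates as a pair -/
theorem mp2 : MeasurePreserving (fun y : E 2 => ((y 0, y 1) : ℝ × ℝ)) := by
  have a := (EuclideanSpace.volume_preserving_symm_measurableEquiv_toLp (Fin 2))
  have b := MeasureTheory.volume_preserving_finTwoArrow ℝ
  exact b.comp a

/-- closed region between two lines -/
theorem area_closed (a b p q r s : ℝ) (hab : a ≤ b) (h : ∀ x ∈ Icc a b, p + q * x ≤ r + s * x) :
    volume {y : E 2 | (a ≤ y 0 ∧ y 0 ≤ b) ∧ p + q * y 0 ≤ y 1 ∧ y 1 ≤ r + s * y 0} =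
      ENNReal.ofReal ((r - p) * (b - a) + (s - q) * (b ^ 2 - a ^ 2) / 2) := by
  set T : Set (ℝ × ℝ) := {w : ℝ × ℝ | (a ≤ w.1 ∧ w.1 ≤ b) ∧ p + q * w.1 ≤ w.2 ∧ w.2 ≤ r + s * w.1} with hT
  have h1 : {y : E 2 | (a ≤ y 0 ∧ y 0 ≤ b) ∧ p + q * y 0 ≤ y 1 ∧ y 1 ≤ r + s * y 0} =
    (fun y : E 2 => ((y 0, y 1) : ℝ × ℝ)) ⁻¹' T := rfl
  have hTm : MeasurableSet T := by
    apply IsClosed.measurableSet
    have : T = ({w : ℝ × ℝ | a ≤ w.1} ∩ {w | w.1 ≤ b}) ∩ ({w | p + q * w.1 ≤ w.2} ∩ {w | w.2 ≤ r + s * w.1}) := rfl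
    rw [this]
    refine IsClosed.inter (IsClosed.inter (isClosed_le ?_ ?_) (isClosed_le ?_ ?_))
      (IsClosed.inter (isClosed_le ?_ ?_) (isClosed_le ?_ ?_)) <;> fun_prop
  rw [h1, mp2.measure_preimage hTm.nullMeasurableSet, Measure.volume_eq_prod, Measure.prod_apply hTm]
  have h2 : ∀ x : ℝ, volume (Prod.mk x ⁻¹' T) =
      (Icc a b).indicator (fun x => ENNReal.ofReal ((r + s * x) - (p + q * x))) x := by
    intro x
    by_cases hx : x ∈ Icc a b
    · rw [indicator_of_mem hx]
      have : Prod.mk x ⁻¹' T = Icc (p + q * x) (r + s * x) := by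
        ext y
        simp only [hT, mem_preimage, mem_ofPred_eq, mem_Icc]
        constructor
        · rintro ⟨_, h2, h3⟩; exact ⟨h2, h3⟩
        · rintro ⟨h2, h3⟩; exact ⟨hx, h2, h3⟩
      rw [this, Real.volume_Icc]
    · rw [indicator_of_notMem hx]
      have : Prod.mk x ⁻¹' T = ∅ := by
        ext y
        simp only [hT, mem_preimage, mem_ofPred_eq, mem_empty_iff_false, iff_false]
        rintro ⟨h1, h2, h3⟩
        exact hx h1
      rw [this, measure_empty]
  simp_rw [h2]
  rw [lintegral_indicator measurableSet_Icc]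
  rw [← ofReal_integral_eq_lintegral_ofReal]
  · congr 1
    rw [integral_Icc_eq_integral_Ioc, ← intervalIntegral.integral_of_le hab]
    have e : ∀ x : ℝ, r + s * x - (p + q * x) = (r - p) + (s - q) * x := fun x => by ring
    simp_rw [e]
    rw [intervalIntegral.integral_add (by simp) (by apply Continuous.intervalIntegrable; fun_prop),
      intervalIntegral.integral_const_mul, integral_id]
    simp
    ring
  · apply ContinuousOn.integrableOn_Icc
    fun_prop
  · filter_upwards [ae_restrict_mem measurableSet_Icc] with x hx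
    simp only [Pi.zero_apply]
    linarith [h x hx]

/-- open region between two lines -/
theorem area_open (a b p q r s : ℝ) (hab : a ≤ b) (h : ∀ x ∈ Icc a b, p + q * x ≤ r + s * x) :
    volume {y : E 2 | (a < y 0 ∧ y 0 < b) ∧ p + q * y 0 < y 1 ∧ y 1 < r + s * y 0} =
      ENNReal.ofReal ((r - p) * (b - a) + (s - q) * (b ^ 2 - a ^ 2) / 2) := by
  set T : Set (ℝ × ℝ) := {w : ℝ × ℝ | (a < w.1 ∧ w.1 < b) ∧ p + q * w.1 < w.2 ∧ w.2 < r + s * w.1} with hT
  have h1 : {y : E 2 | (a < y 0 ∧ y 0 < b) ∧ p + q * y 0 < y 1 ∧ y 1 < r + s * y 0} =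
    (fun y : E 2 => ((y 0, y 1) : ℝ × ℝ)) ⁻¹' T := rfl
  have hTm : MeasurableSet T := by
    apply IsOpen.measurableSet
    have : T = ({w : ℝ × ℝ | a < w.1} ∩ {w | w.1 < b}) ∩ ({w | p + q * w.1 < w.2} ∩ {w | w.2 < r + s * w.1}) := rfl
    rw [this]
    refine IsOpen.inter (IsOpen.inter (isOpen_lt ?_ ?_) (isOpen_lt ?_ ?_))
      (IsOpen.inter (isOpen_lt ?_ ?_) (isOpen_lt ?_ ?_)) <;> fun_prop
  rw [h1, mp2.measure_preimage hTm.nullMeasurableSet, Measure.volume_eq_prod, Measure.prod_apply hTm]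
  have h2 : ∀ x : ℝ, volume (Prod.mk x ⁻¹' T) =
      (Ioo a b).indicator (fun x => ENNReal.ofReal ((r + s * x) - (p + q * x))) x := by
    intro x
    by_cases hx : x ∈ Ioo a b
    · rw [indicator_of_mem hx]
      have : Prod.mk x ⁻¹' T = Ioo (p + q * x) (r + s * x) := by
        ext y
        simp only [hT, mem_preimage, mem_ofPred_eq, mem_Ioo]
        constructor
        · rintro ⟨_, h2, h3⟩; exact ⟨h2, h3⟩
        · rintro ⟨h2, h3⟩; exact ⟨hx, h2, h3⟩
      rw [this, Real.volume_Ioo]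
    · rw [indicator_of_notMem hx]
      have : Prod.mk x ⁻¹' T = ∅ := by
        ext y
        simp only [hT, mem_preimage, mem_ofPred_eq, mem_empty_iff_false, iff_false]
        rintro ⟨h1, h2, h3⟩
        exact hx h1
      rw [this, measure_empty]
  simp_rw [h2]
  rw [lintegral_indicator measurableSet_Ioo, Measure.restrict_congr_set Ioo_ae_eq_Icc]
  rw [← ofReal_integral_eq_lintegral_ofReal]
  · congr 1
    rw [integral_Icc_eq_integral_Ioc, ← intervalIntegral.integral_of_le hab]
    have e : ∀ x : ℝ, r + s * x - (p + q * x) = (r - p) + (s - q) * x := fun x => by ring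
    simp_rw [e]
    rw [intervalIntegral.integral_add (by simp) (by apply Continuous.intervalIntegrable; fun_prop),
      intervalIntegral.integral_const_mul, integral_id]
    simp
    ring
  · apply ContinuousOn.integrableOn_Icc
    fun_prop
  · filter_upwards [ae_restrict_mem measurableSet_Icc] with x hx
    simp only [Pi.zero_apply]
    linarith [h x hx]

/-! ### Hlawka's inequality -/

theorem hlawka {V : Type*} [NormedAddCommGroup V] [InnerProductSpace ℝ V] (x y z : V) :
    ‖x + y‖ + ‖y + z‖ + ‖z + x‖ ≤ ‖x‖ + ‖y‖ + ‖z‖ + ‖x + y + z‖ := by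
  have id1 : ‖x‖ ^ 2 + ‖y‖ ^ 2 + ‖z‖ ^ 2 + ‖x + y + z‖ ^ 2 = ‖x + y‖ ^ 2 + ‖y + z‖ ^ 2 + ‖z + x‖ ^ 2 := by
    have e1 := norm_add_sq_real (x + y) z
    have e2 := norm_add_sq_real x y
    have e3 := norm_add_sq_real y z
    have e4 := norm_add_sq_real z x
    rw [inner_add_left] at e1
    rw [real_inner_comm z x] at e1
    linarith
  have t1 := norm_add_le x y
  have t2 := norm_add_le y z
  have t3 := norm_add_le z x
  have u1 : ‖x + y‖ ≤ ‖z‖ + ‖x + y + z‖ := by
    have := norm_sub_le (x + y + z) z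
    rw [add_sub_cancel_right] at this
    linarith
  have u2 : ‖y + z‖ ≤ ‖x‖ + ‖x + y + z‖ := by
    have := norm_sub_le (x + y + z) x
    have e : x + y + z - x = y + z := by abel
    rw [e] at this
    linarith
  have u3 : ‖z + x‖ ≤ ‖y‖ + ‖x + y + z‖ := by
    have := norm_sub_le (x + y + z) y
    have e : x + y + z - y = z + x := by abel
    rw [e] at this
    linarith
  set a := ‖x‖
  set b := ‖y‖
  set c := ‖z‖
  set s := ‖x + y + z‖
  set p := ‖x + y‖
  set q := ‖y + z‖
  set r := ‖z + x‖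
  have ha : 0 ≤ a := norm_nonneg _
  have hb : 0 ≤ b := norm_nonneg _
  have hc : 0 ≤ c := norm_nonneg _
  have hs : 0 ≤ s := norm_nonneg _
  have key : (a + b + c + s) * (a + b + c + s - p - q - r) =
      (a + b - p) * (c + s - p) + (b + c - q) * (a + s - q) + (c + a - r) * (b + s - r) := by
    nlinarith
  have hpos : 0 ≤ (a + b + c + s) * (a + b + c + s - p - q - r) := by
    rw [key]
    have k1 : 0 ≤ (a + b - p) * (c + s - p) := mul_nonneg (by linarith) (by linarith)
    have k2 : 0 ≤ (b + c - q) * (a + s - q) := mul_nonneg (by linarith) (by linarith)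
    have k3 : 0 ≤ (c + a - r) * (b + s - r) := mul_nonneg (by linarith) (by linarith)
    linarith
  by_contra hneg
  push Not at hneg
  have h1 : a + b + c + s - p - q - r < 0 := by linarith
  have h2 : 0 < a + b + c + s := by
    by_contra h0
    push Not at h0
    have : a + b + c + s = 0 := by linarith
    have a0 : a = 0 := by linarith
    have b0 : b = 0 := by linarith
    have c0 : c = 0 := by linarith
    have s0 : s = 0 := by linarith
    have hp : 0 ≤ p := norm_nonneg _
    linarith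
  nlinarith

/-- Hlawka's inequality in the form used below. -/
theorem four {V : Type*} [NormedAddCommGroup V] [InnerProductSpace ℝ V] (x y z : V) :
    2 * (‖x‖ + ‖y‖ + ‖z‖) ≤ ‖x + y + z‖ + ‖x + y - z‖ + ‖x - y + z‖ + ‖-x + y + z‖ := by
  have h := hlawka (x + y - z) (x - y + z) (-x + y + z)
  have e1 : x + y - z + (x - y + z) = (2 : ℝ) • x := by rw [two_smul]; abel
  have e2 : x - y + z + (-x + y + z) = (2 : ℝ) • z := by rw [two_smul]; abel
  have e3 : -x + y + z + (x + y - z) = (2 : ℝ) • y := by rw [two_smul]; abel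
  have e4 : x + y - z + (x - y + z) + (-x + y + z) = x + y + z := by abel
  rw [e4, e1, e2, e3, norm_smul, norm_smul, norm_smul] at h
  norm_num at h
  linarith

end Pool.Agent.N777.Aff
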