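import Pool.Agent.N777.Aff.Area

/-!
# The truncated octahedron and the octahedron
-/

set_option autoImplicit false

open MeasureTheory Set
open scoped ENNReal

namespace Pool.Agent.N777.Aff

/-- octahedra -/
def Oct (r : ℝ) : Set (E 3) := {x | |x 0| + |x 1| + |x 2| ≤ r}

/-- the truncated octahedron -/
def Tru : Set (E 3) := {x | (|x 0| ≤ 12 ∧ |x 1| ≤ 12 ∧ |x 2| ≤ 12) ∧ |x 0| + |x 1| + |x 2| ≤ 18}

theorem oct_closed (r : ℝ) : IsClosed (Oct r) := isClosed_le (by fun_prop) (by fun_prop)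

theorem tru_closed : IsClosed Tru := by
  have : Tru = ({x : E 3 | |x 0| ≤ 12} ∩ ({x : E 3 | |x 1| ≤ 12} ∩ {x : E 3 | |x 2| ≤ 12})) ∩ Oct 18 := rfl
  rw [this]
  exact ((isClosed_le (by fun_prop) (by fun_prop)).inter ((isClosed_le (by fun_prop) (by fun_prop)).inter
    (isClosed_le (by fun_prop) (by fun_prop)))).inter (oct_closed 18)

theorem oct_bounded (r : ℝ) : Bornology.IsBounded (Oct r) := by
  refine (Metric.isBounded_iff_subset_closedBall 0).2 ⟨r, fun x hx => ?_⟩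
  rw [mem_closedBall_zero_iff]
  have e := EuclideanSpace.norm_sq_eq x
  simp only [Real.norm_eq_abs, Fin.sum_univ_three] at e
  have hx' : |x 0| + |x 1| + |x 2| ≤ r := hx
  have h0 := abs_nonneg (x 0)
  have h1 := abs_nonneg (x 1)
  have h2 := abs_nonneg (x 2)
  have hr : 0 ≤ r := by linarith
  have : ‖x‖ ^ 2 ≤ r ^ 2 := by
    rw [e]
    nlinarith [mul_nonneg h0 h1, mul_nonneg h0 h2, mul_nonneg h1 h2]
  exact (pow_le_pow_iff_left₀ (norm_nonneg _) hr two_ne_zero).1 this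

theorem oct_compact (r : ℝ) : IsCompact (Oct r) :=
  Metric.isCompact_of_isClosed_isBounded (oct_closed r) (oct_bounded r)

theorem tru_compact : IsCompact Tru :=
  Metric.isCompact_of_isClosed_isBounded tru_closed ((oct_bounded 18).subset fun _ hx => hx.2)

theorem abs_comb {a b s t : ℝ} (ha : 0 ≤ a) (hb : 0 ≤ b) : |a * s + b * t| ≤ a * |s| + b * |t| := by
  refine (abs_add_le _ _).trans ?_
  rw [abs_mul, abs_mul, abs_of_nonneg ha, abs_of_nonneg hb]

theorem oct_convex (r : ℝ) : Convex ℝ (Oct r) := by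
  intro x hx y hy a b ha hb hab
  have hx' : |x 0| + |x 1| + |x 2| ≤ r := hx
  have hy' : |y 0| + |y 1| + |y 2| ≤ r := hy
  change |a * x 0 + b * y 0| + |a * x 1 + b * y 1| + |a * x 2 + b * y 2| ≤ r
  have h0 := abs_comb (s := x 0) (t := y 0) ha hb
  have h1 := abs_comb (s := x 1) (t := y 1) ha hb
  have h2 := abs_comb (s := x 2) (t := y 2) ha hb
  have e : b = 1 - a := by linarith
  subst e
  nlinarith

theorem tru_convex : Convex ℝ Tru := by
  intro x hx y hy a b ha hb hab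
  refine ⟨⟨?_, ?_, ?_⟩, oct_convex 18 hx.2 hy.2 ha hb hab⟩
  · change |a * x 0 + b * y 0| ≤ 12
    have h0 := abs_comb (s := x 0) (t := y 0) ha hb
    have := hx.1.1
    have := hy.1.1
    have e : b = 1 - a := by linarith
    subst e
    nlinarith
  · change |a * x 1 + b * y 1| ≤ 12
    have h0 := abs_comb (s := x 1) (t := y 1) ha hb
    have := hx.1.2.1
    have := hy.1.2.1
    have e : b = 1 - a := by linarith
    subst e
    nlinarith
  · change |a * x 2 + b * y 2| ≤ 12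
    have h0 := abs_comb (s := x 2) (t := y 2) ha hb
    have := hx.1.2.2
    have := hy.1.2.2
    have e : b = 1 - a := by linarith
    subst e
    nlinarith

theorem oct_neg {r : ℝ} {x : E 3} (hx : x ∈ Oct r) : -x ∈ Oct r := by
  change |-(x 0)| + |-(x 1)| + |-(x 2)| ≤ r
  rw [abs_neg, abs_neg, abs_neg]
  exact hx

theorem tru_neg {x : E 3} (hx : x ∈ Tru) : -x ∈ Tru := by
  refine ⟨⟨?_, ?_, ?_⟩, oct_neg hx.2⟩
  · change |-(x 0)| ≤ 12
    rw [abs_neg]; exact hx.1.1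
  · change |-(x 1)| ≤ 12
    rw [abs_neg]; exact hx.1.2.1
  · change |-(x 2)| ≤ 12
    rw [abs_neg]; exact hx.1.2.2

/-- strict inequalities -/
def Oo (r : ℝ) : Set (E 3) := {x | |x 0| + |x 1| + |x 2| < r}

theorem oo_open (r : ℝ) : IsOpen (Oo r) := isOpen_lt (by fun_prop) (by fun_prop)

theorem oo_sub (r : ℝ) : Oo r ⊆ interior (Oct r) :=
  interior_maximal (fun x hx => by
    have h : |x 0| + |x 1| + |x 2| < r := hx
    exact h.le) (oo_open r)

def To : Set (E 3) := {x | (|x 0| < 12 ∧ |x 1| < 12 ∧ |x 2| < 12) ∧ |x 0| + |x 1| + |x 2| < 18}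

theorem to_open : IsOpen To := by
  have : To = ({x : E 3 | |x 0| < 12} ∩ ({x : E 3 | |x 1| < 12} ∩ {x : E 3 | |x 2| < 12})) ∩ Oo 18 := rfl
  rw [this]
  exact ((isOpen_lt (by fun_prop) (by fun_prop)).inter ((isOpen_lt (by fun_prop) (by fun_prop)).inter
    (isOpen_lt (by fun_prop) (by fun_prop)))).inter (oo_open 18)

theorem to_sub : To ⊆ interior Tru :=
  interior_maximal (fun _ hx => ⟨⟨hx.1.1.le, hx.1.2.1.le, hx.1.2.2.le⟩, le_of_lt hx.2⟩) to_open

theorem oct_interior : (interior (Oct 17)).Nonempty := by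
  refine ⟨0, oo_sub 17 ?_⟩
  change |(0 : ℝ)| + |(0 : ℝ)| + |(0 : ℝ)| < 17
  norm_num

theorem tru_interior : (interior Tru).Nonempty := by
  refine ⟨0, to_sub ⟨⟨?_, ?_, ?_⟩, ?_⟩⟩
  · change |(0 : ℝ)| < 12
    norm_num
  · change |(0 : ℝ)| < 12
    norm_num
  · change |(0 : ℝ)| < 12
    norm_num
  · change |(0 : ℝ)| + |(0 : ℝ)| + |(0 : ℝ)| < 18
    norm_num

/-! ### Faces -/

/-- signs -/
def sg (b : Bool) : ℝ := if b then 1 else -1

@[simp] theorem sg_true : sg true = 1 := rfl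
@[simp] theorem sg_false : sg false = -1 := rfl

theorem sg_abs (t : ℝ) : ∃ b, sg b * t = |t| := by
  by_cases h : 0 ≤ t
  · exact ⟨true, by simp [abs_of_nonneg h]⟩
  · exact ⟨false, by simp [abs_of_neg (not_le.1 h)]⟩

theorem sg_sq (b : Bool) : sg b * sg b = 1 := by cases b <;> norm_num

theorem sg_le (b : Bool) (t : ℝ) : sg b * t ≤ |t| := by
  cases b
  · simpa using neg_le_abs t
  · simpa using le_abs_self t

/-- domain of the squares -/
def Dsq : Set (E 2) := {y | |y 0| + |y 1| ≤ 6}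

/-- domain of the hexagons -/
def Dhex : Set (E 2) := {y | (0 ≤ y 0 ∧ y 0 ≤ 12) ∧ (0 ≤ y 1 ∧ y 1 ≤ 12) ∧ 6 ≤ y 0 + y 1 ∧ y 0 + y 1 ≤ 18}

/-- domain of the open triangles -/
def Dtri : Set (E 2) := {y | 0 < y 0 ∧ 0 < y 1 ∧ y 0 + y 1 < 17}

theorem dsq_vol : volume Dsq ≤ ENNReal.ofReal 72 := by
  have h1 := area_closed (-6) 0 (-6) (-1) 6 1 (by norm_num) (by intro x hx; linarith [hx.1])
  have h2 := area_closed 0 6 (-6) 1 6 (-1) (by norm_num) (by intro x hx; linarith [hx.2])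
  have hsub : Dsq ⊆ {y : E 2 | (-6 ≤ y 0 ∧ y 0 ≤ 0) ∧ -6 + -1 * y 0 ≤ y 1 ∧ y 1 ≤ 6 + 1 * y 0} ∪
      {y : E 2 | (0 ≤ y 0 ∧ y 0 ≤ 6) ∧ -6 + 1 * y 0 ≤ y 1 ∧ y 1 ≤ 6 + -1 * y 0} := by
    intro y hy
    have hy' : |y 0| + |y 1| ≤ 6 := hy
    have a0 := le_abs_self (y 0)
    have a1 := neg_le_abs (y 0)
    have b0 := le_abs_self (y 1)
    have b1 := neg_le_abs (y 1)
    by_cases h : 0 ≤ y 0
    · right
      refine ⟨⟨h, by linarith [abs_nonneg (y 1)]⟩, by linarith, by linarith⟩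
    · left
      refine ⟨⟨by linarith [abs_nonneg (y 1)], by linarith⟩, by linarith, by linarith⟩
  refine (measure_mono hsub).trans ((measure_union_le _ _).trans ?_)
  rw [h1, h2, ← ENNReal.ofReal_add (by norm_num) (by norm_num)]
  apply ENNReal.ofReal_le_ofReal
  norm_num

theorem dhex_vol : volume Dhex ≤ ENNReal.ofReal 108 := by
  have h1 := area_closed 0 6 6 (-1) 12 0 (by norm_num) (by intro x hx; linarith [hx.1])
  have h2 := area_closed 6 12 0 0 18 (-1) (by norm_num) (by intro x hx; linarith [hx.2])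
  have hsub : Dhex ⊆ {y : E 2 | (0 ≤ y 0 ∧ y 0 ≤ 6) ∧ 6 + -1 * y 0 ≤ y 1 ∧ y 1 ≤ 12 + 0 * y 0} ∪
      {y : E 2 | (6 ≤ y 0 ∧ y 0 ≤ 12) ∧ 0 + 0 * y 0 ≤ y 1 ∧ y 1 ≤ 18 + -1 * y 0} := by
    rintro y ⟨⟨a, b⟩, ⟨c, d⟩, e, f⟩
    by_cases h : y 0 ≤ 6
    · left
      refine ⟨⟨a, h⟩, by linarith, by linarith⟩
    · right
      refine ⟨⟨by linarith, b⟩, by linarith, by linarith⟩
  refine (measure_mono hsub).trans ((measure_union_le _ _).trans ?_)
  rw [h1, h2, ← ENNReal.ofReal_add (by norm_num) (by norm_num)]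
  apply ENNReal.ofReal_le_ofReal
  norm_num

theorem dtri_vol : ENNReal.ofReal 144 ≤ volume Dtri := by
  have h1 := area_open 0 17 0 0 17 (-1) (by norm_num) (by intro x hx; linarith [hx.2])
  have hsub : {y : E 2 | (0 < y 0 ∧ y 0 < 17) ∧ 0 + 0 * y 0 < y 1 ∧ y 1 < 17 + -1 * y 0} ⊆ Dtri := by
    rintro y ⟨⟨a, b⟩, c, d⟩
    exact ⟨a, by linarith, by linarith⟩
  refine le_trans ?_ (measure_mono hsub)
  rw [h1]
  apply ENNReal.ofReal_le_ofReal
  norm_num

/-- unit vectors -/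
def e0 : E 3 := vec 1 0 0
def e1 : E 3 := vec 0 1 0
def e2 : E 3 := vec 0 0 1

/-- square faces -/
def sqf0 (b : Bool) : Set (E 3) := para ((12 * sg b) • e0) e1 e2 '' Dsq
def sqf1 (b : Bool) : Set (E 3) := para ((12 * sg b) • e1) e2 e0 '' Dsq
def sqf2 (b : Bool) : Set (E 3) := para ((12 * sg b) • e2) e0 e1 '' Dsq

/-- hexagonal faces -/
def hexf (b : Bool × Bool × Bool) : Set (E 3) :=
  para ((18 * sg b.1) • e0) (-(sg b.1) • e0 + sg b.2.1 • e1) (-(sg b.1) • e0 + sg b.2.2 • e2) '' Dhex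

/-- open triangular faces -/
def trif (b : Bool × Bool × Bool) : Set (E 3) :=
  para ((17 * sg b.1) • e0) (-(sg b.1) • e0 + sg b.2.1 • e1) (-(sg b.1) • e0 + sg b.2.2 • e2) '' Dtri

theorem abs_eq_sg {t c : ℝ} (h : |t| = c) : ∃ b, t = c * sg b := by
  obtain ⟨b, hb⟩ := sg_abs t
  refine ⟨b, ?_⟩
  have := sg_sq b
  rw [← h, ← hb]
  linear_combination (-t) * this

theorem frontier_tru : frontier Tru ⊆
    ((⋃ b, sqf0 b) ∪ ((⋃ b, sqf1 b) ∪ (⋃ b, sqf2 b))) ∪ ⋃ b, hexf b := by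
  intro x hx
  have hxK : x ∈ Tru := tru_closed.frontier_subset hx
  have hxo : x ∉ To := fun h => hx.2 (to_sub h)
  obtain ⟨⟨h0, h1, h2⟩, h3⟩ := hxK
  by_cases c0 : |x 0| = 12
  · left; left
    obtain ⟨b, hb⟩ := abs_eq_sg c0
    refine mem_iUnion.2 ⟨b, WithLp.toLp 2 ![x 1, x 2], ?_, ?_⟩
    · change |x 1| + |x 2| ≤ 6
      linarith
    · apply ext3 <;> simp [para, e0, e1, e2, hb]
  by_cases c1 : |x 1| = 12
  · left; right; left
    obtain ⟨b, hb⟩ := abs_eq_sg c1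
    refine mem_iUnion.2 ⟨b, WithLp.toLp 2 ![x 2, x 0], ?_, ?_⟩
    · change |x 2| + |x 0| ≤ 6
      linarith
    · apply ext3 <;> simp [para, e0, e1, e2, hb]
  by_cases c2 : |x 2| = 12
  · left; right; right
    obtain ⟨b, hb⟩ := abs_eq_sg c2
    refine mem_iUnion.2 ⟨b, WithLp.toLp 2 ![x 0, x 1], ?_, ?_⟩
    · change |x 0| + |x 1| ≤ 6
      linarith
    · apply ext3 <;> simp [para, e0, e1, e2, hb]
  by_cases c3 : |x 0| + |x 1| + |x 2| = 18
  · right
    obtain ⟨b0, hb0⟩ := sg_abs (x 0)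
    obtain ⟨b1, hb1⟩ := sg_abs (x 1)
    obtain ⟨b2, hb2⟩ := sg_abs (x 2)
    have s0 := sg_sq b0
    have s1 := sg_sq b1
    have s2 := sg_sq b2
    have n0 := abs_nonneg (x 0)
    have n1 := abs_nonneg (x 1)
    have n2 := abs_nonneg (x 2)
    refine mem_iUnion.2 ⟨(b0, b1, b2), WithLp.toLp 2 ![|x 1|, |x 2|], ?_, ?_⟩
    · refine ⟨⟨n1, h1⟩, ⟨n2, h2⟩, ?_, ?_⟩
      · change 6 ≤ |x 1| + |x 2|
        linarith
      · change |x 1| + |x 2| ≤ 18
        linarith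
    · apply ext3
      · simp [para, e0, e1, e2]
        have : |x 0| = 18 - |x 1| - |x 2| := by linarith
        rw [← hb0] at this
        linear_combination (-(sg b0)) * this + (x 0) * s0
      · simp [para, e0, e1, e2]
        rw [← hb1]
        linear_combination (x 1) * s1
      · simp [para, e0, e1, e2]
        rw [← hb2]
        linear_combination (x 2) * s2
  · exact absurd ⟨⟨lt_of_le_of_ne h0 c0, lt_of_le_of_ne h1 c1, lt_of_le_of_ne h2 c2⟩,
      lt_of_le_of_ne h3 c3⟩ hxo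

theorem trif_frontier (b : Bool × Bool × Bool) : trif b ⊆ frontier (Oct 17) := by
  rintro x ⟨y, ⟨hy0, hy1, hy2⟩, rfl⟩
  set x := para ((17 * sg b.1) • e0) (-(sg b.1) • e0 + sg b.2.1 • e1) (-(sg b.1) • e0 + sg b.2.2 • e2) y with hx
  have x0 : x 0 = sg b.1 * (17 - y 0 - y 1) := by
    rw [hx]; simp [para, e0, e1, e2]; ring
  have x1 : x 1 = sg b.2.1 * y 0 := by
    rw [hx]; simp [para, e0, e1, e2]; ring
  have x2 : x 2 = sg b.2.2 * y 1 := by
    rw [hx]; simp [para, e0, e1, e2]; ring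
  have sabs : ∀ c : Bool, |sg c| = 1 := by intro c; cases c <;> simp
  have hsum : |x 0| + |x 1| + |x 2| = 17 := by
    rw [x0, x1, x2, abs_mul, abs_mul, abs_mul, sabs, sabs, sabs, abs_of_pos (by linarith : 0 < 17 - y 0 - y 1),
      abs_of_pos hy0, abs_of_pos hy1]
    ring
  have hmem : x ∈ Oct 17 := hsum.le
  refine ⟨subset_closure hmem, fun hint => ?_⟩
  have hc : Filter.Tendsto (fun t : ℝ => (1 + t) • x) (nhds 0) (nhds x) := by
    have : Continuous fun t : ℝ => (1 + t) • x := by fun_prop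
    have h := this.tendsto 0
    simpa using h
  have hev := hc (mem_interior_iff_mem_nhds.1 hint)
  rw [Filter.mem_map, Metric.mem_nhds_iff] at hev
  obtain ⟨ε, hε, hsub⟩ := hev
  have h1 : (ε / 2) ∈ Metric.ball (0 : ℝ) ε := by
    rw [Metric.mem_ball, dist_zero_right, Real.norm_eq_abs, abs_of_pos (by linarith)]
    linarith
  have h2 := hsub h1
  have h3 : |(1 + ε / 2) * x 0| + |(1 + ε / 2) * x 1| + |(1 + ε / 2) * x 2| ≤ 17 := h2
  rw [abs_mul, abs_mul, abs_mul, abs_of_pos (by linarith : 0 < 1 + ε / 2)] at h3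
  nlinarith

theorem trif_disjoint : Pairwise (Function.onFun Disjoint trif) := by
  intro b c hbc
  rw [Function.onFun, Set.disjoint_left]
  rintro x ⟨y, ⟨hy0, hy1, hy2⟩, hy⟩ ⟨z, ⟨hz0, hz1, hz2⟩, hz⟩
  apply hbc
  have x0 : x 0 = sg b.1 * (17 - y 0 - y 1) := by
    rw [← hy]; simp [para, e0, e1, e2]; ring
  have x1 : x 1 = sg b.2.1 * y 0 := by
    rw [← hy]; simp [para, e0, e1, e2]; ring
  have x2 : x 2 = sg b.2.2 * y 1 := by
    rw [← hy]; simp [para, e0, e1, e2]; ring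
  have z0 : x 0 = sg c.1 * (17 - z 0 - z 1) := by
    rw [← hz]; simp [para, e0, e1, e2]; ring
  have z1 : x 1 = sg c.2.1 * z 0 := by
    rw [← hz]; simp [para, e0, e1, e2]; ring
  have z2 : x 2 = sg c.2.2 * z 1 := by
    rw [← hz]; simp [para, e0, e1, e2]; ring
  have key : ∀ (p q : Bool) (s t : ℝ), 0 < s → 0 < t → sg p * s = sg q * t → p = q := by
    intro p q s t hs ht h
    cases p <;> cases q <;> simp at h ⊢ <;> linarith
  obtain ⟨b0, b1, b2⟩ := b
  obtain ⟨c0, c1, c2⟩ := c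
  have r0 := key b0 c0 _ _ (by linarith) (by linarith) (x0.symm.trans z0)
  have r1 := key b1 c1 _ _ hy0 hz0 (x1.symm.trans z1)
  have r2 := key b2 c2 _ _ hy1 hz1 (x2.symm.trans z2)
  rw [r0, r1, r2]

end Pool.Agent.N777.Aff
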