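import Pool.Agent.N777.Aff.Main

/-!
# Surface areas of the affine images, and volumes
-/

set_option autoImplicit false

open MeasureTheory Set
open scoped ENNReal Pointwise

namespace Pool.Agent.N777.Aff

theorem image_para (A : E 3 ≃ᵃ[ℝ] E 3) (p u v : E 3) (D : Set (E 2)) :
    A '' (para p u v '' D) = para (A p) (A.linear u) (A.linear v) '' D := by
  rw [image_image]
  apply image_congr
  intro y _
  have h := A.map_vadd p (y 0 • u + y 1 • v)
  simp only [vadd_eq_add, map_add, map_smul] at h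
  rw [para, para, add_comm p, h, add_comm]

theorem area_image (A : E 3 ≃ᵃ[ℝ] E 3) (p u v : E 3) (D : Set (E 2)) :
    μHE[2] (A '' (para p u v '' D)) = ENNReal.ofReal ‖cr (A.linear u) (A.linear v)‖ * volume D := by
  rw [image_para, area_para]

theorem image_frontier (A : E 3 ≃ᵃ[ℝ] E 3) (s : Set (E 3)) : frontier (A '' s) = A '' frontier s := by
  have h := (AffineEquiv.toContinuousAffineEquiv A).toHomeomorph.image_frontier s
  exact h.symm

/-- the cofactor vectors -/
noncomputable def b0 (A : E 3 ≃ᵃ[ℝ] E 3) : E 3 := cr (A.linear e1) (A.linear e2)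
noncomputable def b1 (A : E 3 ≃ᵃ[ℝ] E 3) : E 3 := cr (A.linear e2) (A.linear e0)
noncomputable def b2 (A : E 3 ≃ᵃ[ℝ] E 3) : E 3 := cr (A.linear e0) (A.linear e1)

theorem cr_face (a0 a1 a2 : E 3) (s0 s1 s2 : ℝ) (h0 : s0 * s0 = 1) (h1 : s1 * s1 = 1) (h2 : s2 * s2 = 1) :
    ‖cr (-s0 • a0 + s1 • a1) (-s0 • a0 + s2 • a2)‖ = ‖s0 • cr a1 a2 + s1 • cr a2 a0 + s2 • cr a0 a1‖ := by
  have e : cr (-s0 • a0 + s1 • a1) (-s0 • a0 + s2 • a2) =
      (s0 * s1 * s2) • (s0 • cr a1 a2 + s1 • cr a2 a0 + s2 • cr a0 a1) := by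
    apply ext3
    · simp [cr]
      linear_combination (-(s1 * s2 * (a1 1 * a2 2 - a1 2 * a2 1))) * h0 -
        (s0 * s2 * (a2 1 * a0 2 - a2 2 * a0 1)) * h1 - (s0 * s1 * (a0 1 * a1 2 - a0 2 * a1 1)) * h2
    · simp [cr]
      linear_combination (-(s1 * s2 * (a1 2 * a2 0 - a1 0 * a2 2))) * h0 -
        (s0 * s2 * (a2 2 * a0 0 - a2 0 * a0 2)) * h1 - (s0 * s1 * (a0 2 * a1 0 - a0 0 * a1 2)) * h2
    · simp [cr]
      linear_combination (-(s1 * s2 * (a1 0 * a2 1 - a1 1 * a2 0))) * h0 -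
        (s0 * s2 * (a2 0 * a0 1 - a2 1 * a0 0)) * h1 - (s0 * s1 * (a0 0 * a1 1 - a0 1 * a1 0)) * h2
  rw [e, norm_smul]
  have h3 : ‖s0 * s1 * s2‖ = 1 := by
    have : (s0 * s1 * s2) ^ 2 = 1 := by
      calc (s0 * s1 * s2) ^ 2 = (s0 * s0) * (s1 * s1) * (s2 * s2) := by ring
        _ = 1 := by rw [h0, h1, h2]; norm_num
    rw [Real.norm_eq_abs]
    have h4 := sq_abs (s0 * s1 * s2)
    rw [this] at h4
    have h5 := abs_nonneg (s0 * s1 * s2)
    nlinarith
  rw [h3, one_mul]

/-- the norm attached to a face -/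
noncomputable def fn (A : E 3 ≃ᵃ[ℝ] E 3) (b : Bool × Bool × Bool) : ℝ :=
  ‖sg b.1 • b0 A + sg b.2.1 • b1 A + sg b.2.2 • b2 A‖

theorem area_hexf (A : E 3 ≃ᵃ[ℝ] E 3) (b : Bool × Bool × Bool) :
    μHE[2] (A '' hexf b) ≤ ENNReal.ofReal (108 * fn A b) := by
  rw [hexf, area_image]
  have h : ‖cr (A.linear (-(sg b.1) • e0 + sg b.2.1 • e1)) (A.linear (-(sg b.1) • e0 + sg b.2.2 • e2))‖ = fn A b := by
    rw [map_add, map_add, map_smul, map_smul, map_smul]
    exact cr_face _ _ _ _ _ _ (sg_sq _) (sg_sq _) (sg_sq _)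
  rw [h, mul_comm, ENNReal.ofReal_mul (by norm_num)]
  gcongr
  exact dhex_vol

theorem area_trif (A : E 3 ≃ᵃ[ℝ] E 3) (b : Bool × Bool × Bool) :
    ENNReal.ofReal (144 * fn A b) ≤ μHE[2] (A '' trif b) := by
  rw [trif, area_image]
  have h : ‖cr (A.linear (-(sg b.1) • e0 + sg b.2.1 • e1)) (A.linear (-(sg b.1) • e0 + sg b.2.2 • e2))‖ = fn A b := by
    rw [map_add, map_add, map_smul, map_smul, map_smul]
    exact cr_face _ _ _ _ _ _ (sg_sq _) (sg_sq _) (sg_sq _)
  rw [h, mul_comm _ (volume Dtri), ENNReal.ofReal_mul (by norm_num)]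
  gcongr
  exact dtri_vol

theorem area_sqf0 (A : E 3 ≃ᵃ[ℝ] E 3) (b : Bool) : μHE[2] (A '' sqf0 b) ≤ ENNReal.ofReal (72 * ‖b0 A‖) := by
  rw [sqf0, area_image, mul_comm, ENNReal.ofReal_mul (by norm_num), b0]
  gcongr
  exact dsq_vol

theorem area_sqf1 (A : E 3 ≃ᵃ[ℝ] E 3) (b : Bool) : μHE[2] (A '' sqf1 b) ≤ ENNReal.ofReal (72 * ‖b1 A‖) := by
  rw [sqf1, area_image, mul_comm, ENNReal.ofReal_mul (by norm_num), b1]
  gcongr
  exact dsq_vol

theorem area_sqf2 (A : E 3 ≃ᵃ[ℝ] E 3) (b : Bool) : μHE[2] (A '' sqf2 b) ≤ ENNReal.ofReal (72 * ‖b2 A‖) := by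
  rw [sqf2, area_image, mul_comm, ENNReal.ofReal_mul (by norm_num), b2]
  gcongr
  exact dsq_vol

theorem area_iUnion_le {ι : Type} [Fintype ι] (A : E 3 ≃ᵃ[ℝ] E 3) (f : ι → Set (E 3)) (g : ι → ℝ)
    (hg : ∀ i, 0 ≤ g i) (h : ∀ i, μHE[2] (A '' f i) ≤ ENNReal.ofReal (g i)) :
    μHE[2] (A '' ⋃ i, f i) ≤ ENNReal.ofReal (∑ i, g i) := by
  rw [image_iUnion, ENNReal.ofReal_sum_of_nonneg fun i _ => hg i]
  exact (measure_iUnion_fintype_le _ _).trans (Finset.sum_le_sum fun i _ => h i)

theorem surf_tru (A : E 3 ≃ᵃ[ℝ] E 3) :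
    μHE[2] (frontier (A '' Tru)) ≤
      ENNReal.ofReal (144 * (‖b0 A‖ + ‖b1 A‖ + ‖b2 A‖) + ∑ b, 108 * fn A b) := by
  rw [image_frontier]
  refine (measure_mono (image_mono frontier_tru)).trans ?_
  rw [image_union, image_union, image_union]
  have h0 := area_iUnion_le A sqf0 (fun _ => 72 * ‖b0 A‖) (fun _ => by positivity) (area_sqf0 A)
  have h1 := area_iUnion_le A sqf1 (fun _ => 72 * ‖b1 A‖) (fun _ => by positivity) (area_sqf1 A)
  have h2 := area_iUnion_le A sqf2 (fun _ => 72 * ‖b2 A‖) (fun _ => by positivity) (area_sqf2 A)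
  have h3 := area_iUnion_le A hexf (fun b => 108 * fn A b) (fun b => by unfold fn; positivity) (area_hexf A)
  rw [Fintype.sum_bool] at h0 h1 h2
  have hs : 0 ≤ ∑ b, 108 * fn A b := Finset.sum_nonneg fun b _ => by unfold fn; positivity
  calc _ ≤ (μHE[2] (A '' ⋃ b, sqf0 b) + (μHE[2] (A '' ⋃ b, sqf1 b) + μHE[2] (A '' ⋃ b, sqf2 b))) +
        μHE[2] (A '' ⋃ b, hexf b) := by
        refine (measure_union_le _ _).trans ?_
        gcongr
        refine (measure_union_le _ _).trans ?_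
        gcongr
        exact measure_union_le _ _
    _ ≤ (ENNReal.ofReal (72 * ‖b0 A‖ + 72 * ‖b0 A‖) + (ENNReal.ofReal (72 * ‖b1 A‖ + 72 * ‖b1 A‖) +
        ENNReal.ofReal (72 * ‖b2 A‖ + 72 * ‖b2 A‖))) + ENNReal.ofReal (∑ b, 108 * fn A b) := by
        gcongr
    _ = _ := by
        rw [← ENNReal.ofReal_add (by positivity) (by positivity), ← ENNReal.ofReal_add (by positivity) (by positivity),
          ← ENNReal.ofReal_add (by positivity) hs]
        congr 1
        ring

theorem surf_oct (A : E 3 ≃ᵃ[ℝ] E 3) :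
    ENNReal.ofReal (∑ b, 144 * fn A b) ≤ μHE[2] (frontier (A '' Oct 17)) := by
  rw [image_frontier]
  have hsub : (⋃ b, A '' trif b) ⊆ A '' frontier (Oct 17) := by
    rw [← image_iUnion]
    exact image_mono (iUnion_subset trif_frontier)
  refine le_trans ?_ (measure_mono hsub)
  have hmeas : ∀ b, MeasurableSet (A '' trif b) := by
    intro b
    have h1 : MeasurableSet (trif b) := by
      have : trif b = {x : E 3 | 0 < sg b.1 * x 0 ∧ 0 < sg b.2.1 * x 1 ∧ 0 < sg b.2.2 * x 2 ∧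
          sg b.1 * x 0 + sg b.2.1 * x 1 + sg b.2.2 * x 2 = 17} := by
        have s0 := sg_sq b.1
        have s1 := sg_sq b.2.1
        have s2 := sg_sq b.2.2
        ext x
        constructor
        · rintro ⟨y, ⟨hy0, hy1, hy2⟩, rfl⟩
          have x0 : sg b.1 * (para ((17 * sg b.1) • e0) (-(sg b.1) • e0 + sg b.2.1 • e1)
              (-(sg b.1) • e0 + sg b.2.2 • e2) y) 0 = 17 - y 0 - y 1 := by
            simp [para, e0, e1, e2]
            linear_combination (17 - y 0 - y 1) * s0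
          have x1 : sg b.2.1 * (para ((17 * sg b.1) • e0) (-(sg b.1) • e0 + sg b.2.1 • e1)
              (-(sg b.1) • e0 + sg b.2.2 • e2) y) 1 = y 0 := by
            simp [para, e0, e1, e2]
            linear_combination (y 0) * s1
          have x2 : sg b.2.2 * (para ((17 * sg b.1) • e0) (-(sg b.1) • e0 + sg b.2.1 • e1)
              (-(sg b.1) • e0 + sg b.2.2 • e2) y) 2 = y 1 := by
            simp [para, e0, e1, e2]
            linear_combination (y 1) * s2
          simp only [mem_ofPred_eq]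
          rw [x0, x1, x2]
          exact ⟨by linarith, hy0, hy1, by ring⟩
        · rintro ⟨h0, h1, h2, h3⟩
          refine ⟨WithLp.toLp 2 ![sg b.2.1 * x 1, sg b.2.2 * x 2], ⟨h1, h2, ?_⟩, ?_⟩
          · change sg b.2.1 * x 1 + sg b.2.2 * x 2 < 17
            linarith
          · apply ext3
            · simp [para, e0, e1, e2]
              linear_combination (-(sg b.1)) * h3 + (x 0) * s0
            · simp [para, e0, e1, e2]
              linear_combination (x 1) * s1
            · simp [para, e0, e1, e2]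
              linear_combination (x 2) * s2
      rw [this]
      have m1 : MeasurableSet {x : E 3 | 0 < sg b.1 * x 0} := measurableSet_lt (by fun_prop) (by fun_prop)
      have m2 : MeasurableSet {x : E 3 | 0 < sg b.2.1 * x 1} := measurableSet_lt (by fun_prop) (by fun_prop)
      have m3 : MeasurableSet {x : E 3 | 0 < sg b.2.2 * x 2} := measurableSet_lt (by fun_prop) (by fun_prop)
      have m4 : MeasurableSet {x : E 3 | sg b.1 * x 0 + sg b.2.1 * x 1 + sg b.2.2 * x 2 = 17} :=
        measurableSet_eq_fun (by fun_prop) (by fun_prop)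
      exact m1.inter (m2.inter (m3.inter m4))
    exact (AffineEquiv.toContinuousAffineEquiv A).toHomeomorph.toMeasurableEquiv.measurableSet_image.2 h1
  have hdisj : Pairwise (Function.onFun Disjoint fun b => A '' trif b) := by
    intro b c hbc
    exact (disjoint_image_iff A.injective).2 (trif_disjoint hbc)
  rw [measure_iUnion hdisj hmeas, tsum_fintype, ENNReal.ofReal_sum_of_nonneg fun i _ => by unfold fn; positivity]
  exact Finset.sum_le_sum fun b _ => area_trif A b

theorem surf_le (A : E 3 ≃ᵃ[ℝ] E 3) : μHE[2] (frontier (A '' Tru)) ≤ μHE[2] (frontier (A '' Oct 17)) := by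
  refine (surf_tru A).trans (le_trans (ENNReal.ofReal_le_ofReal ?_) (surf_oct A))
  simp only [Fintype.sum_prod_type, Fintype.sum_bool, fn, sg_true, sg_false, one_smul, neg_one_smul]
  have h := four (b0 A) (b1 A) (b2 A)
  have n1 : ‖b0 A + -b1 A + -b2 A‖ = ‖-b0 A + b1 A + b2 A‖ := by
    rw [← norm_neg]; congr 1; abel
  have n2 : ‖-b0 A + b1 A + -b2 A‖ = ‖b0 A - b1 A + b2 A‖ := by
    rw [← norm_neg]; congr 1; abel
  have n3 : ‖-b0 A + -b1 A + b2 A‖ = ‖b0 A + b1 A - b2 A‖ := by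
    rw [← norm_neg]; congr 1; abel
  have n4 : ‖-b0 A + -b1 A + -b2 A‖ = ‖b0 A + b1 A + b2 A‖ := by
    rw [← norm_neg]; congr 1; abel
  have n5 : ‖b0 A + b1 A + -b2 A‖ = ‖b0 A + b1 A - b2 A‖ := by
    rw [← sub_eq_add_neg]
  have n6 : ‖b0 A + -b1 A + b2 A‖ = ‖b0 A - b1 A + b2 A‖ := by
    rw [← sub_eq_add_neg]
  rw [n1, n2, n3, n4, n5, n6]
  linarith

/-! ### Volumes -/

theorem oct_smul {r : ℝ} (hr : 0 < r) : Oct r = r • Oct 1 := by
  ext x
  rw [mem_smul_set_iff_inv_smul_mem₀ hr.ne']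
  change |x 0| + |x 1| + |x 2| ≤ r ↔ |r⁻¹ * x 0| + |r⁻¹ * x 1| + |r⁻¹ * x 2| ≤ 1
  rw [abs_mul, abs_mul, abs_mul, abs_of_pos (inv_pos.2 hr), ← mul_add, ← mul_add, inv_mul_le_iff₀ hr, mul_one]

theorem oct_vol {r : ℝ} (hr : 0 < r) : volume (Oct r) = ENNReal.ofReal (r ^ 3) * volume (Oct 1) := by
  rw [oct_smul hr, Measure.addHaar_smul, finrank_euclideanSpace_fin, abs_of_pos (by positivity)]

theorem oct_pos : 0 < volume (Oct 1) := by
  refine lt_of_lt_of_le ?_ (measure_mono (interior_subset (s := Oct 1)))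
  refine IsOpen.measure_pos volume isOpen_interior ⟨0, oo_sub 1 ?_⟩
  change |(0 : ℝ)| + |(0 : ℝ)| + |(0 : ℝ)| < 1
  norm_num

theorem oct_fin (r : ℝ) : volume (Oct r) ≠ ⊤ := (oct_compact r).measure_lt_top.ne

/-- the caps in a coordinate direction -/
theorem caps (i : Fin 3) : volume (Oct 18 ∩ {x : E 3 | 12 < |x i|}) ≤ volume (Oct 6) := by
  have hs : Oct 18 ∩ {x : E 3 | 12 < |x i|} ⊆
      ((fun x => EuclideanSpace.single i (12 : ℝ) + x) '' (Oct 6 ∩ {x | 0 < x i})) ∪
      ((fun x => EuclideanSpace.single i (-12 : ℝ) + x) '' (Oct 6 ∩ {x | x i < 0})) := by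
    rintro x ⟨hx, hi⟩
    have hx' : |x 0| + |x 1| + |x 2| ≤ 18 := hx
    have hi' : 12 < |x i| := hi
    by_cases h : 0 ≤ x i
    · left
      refine ⟨x - EuclideanSpace.single i (12 : ℝ), ⟨?_, ?_⟩, by simp⟩
      · rw [abs_of_nonneg h] at hi'
        have key : |x i - 12| = x i - 12 := abs_of_pos (by linarith)
        have key2 : |x i| = x i := abs_of_nonneg h
        change |(x - EuclideanSpace.single i (12 : ℝ)) 0| + |(x - EuclideanSpace.single i (12 : ℝ)) 1| +
          |(x - EuclideanSpace.single i (12 : ℝ)) 2| ≤ 6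
        fin_cases i
        · have k1 : |x 0 - 12| = x 0 - 12 := key
          have k2 : |x 0| = x 0 := key2
          simp
          linarith
        · have k1 : |x 1 - 12| = x 1 - 12 := key
          have k2 : |x 1| = x 1 := key2
          simp
          linarith
        · have k1 : |x 2 - 12| = x 2 - 12 := key
          have k2 : |x 2| = x 2 := key2
          simp
          linarith
      · change 0 < (x - EuclideanSpace.single i (12 : ℝ)) i
        rw [abs_of_nonneg h] at hi'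
        simp
        linarith
    · push Not at h
      right
      refine ⟨x - EuclideanSpace.single i (-12 : ℝ), ⟨?_, ?_⟩, by simp⟩
      · rw [abs_of_neg h] at hi'
        have key : |x i + 12| = -(x i) - 12 := by rw [abs_of_neg (by linarith)]; ring
        have key2 : |x i| = -(x i) := abs_of_neg h
        change |(x - EuclideanSpace.single i (-12 : ℝ)) 0| + |(x - EuclideanSpace.single i (-12 : ℝ)) 1| +
          |(x - EuclideanSpace.single i (-12 : ℝ)) 2| ≤ 6
        fin_cases i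
        · have k1 : |x 0 + 12| = -(x 0) - 12 := key
          have k2 : |x 0| = -(x 0) := key2
          simp
          linarith
        · have k1 : |x 1 + 12| = -(x 1) - 12 := key
          have k2 : |x 1| = -(x 1) := key2
          simp
          linarith
        · have k1 : |x 2 + 12| = -(x 2) - 12 := key
          have k2 : |x 2| = -(x 2) := key2
          simp
          linarith
      · change (x - EuclideanSpace.single i (-12 : ℝ)) i < 0
        rw [abs_of_neg h] at hi'
        simp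
        linarith
  refine (measure_mono hs).trans ((measure_union_le _ _).trans ?_)
  rw [image_add_left, image_add_left, measure_preimage_add, measure_preimage_add]
  have hd : Disjoint (Oct 6 ∩ {x : E 3 | 0 < x i}) (Oct 6 ∩ {x : E 3 | x i < 0}) := by
    rw [Set.disjoint_left]
    rintro x ⟨_, h1⟩ ⟨_, h2⟩
    have h1' : 0 < x i := h1
    have h2' : x i < 0 := h2
    exact lt_asymm h1' h2'
  rw [← measure_union hd ((oct_closed 6).measurableSet.inter (measurableSet_lt (by fun_prop) (by fun_prop)))]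
  exact measure_mono (union_subset inter_subset_left inter_subset_left)

theorem vol_lt : volume (Oct 17) < volume Tru := by
  have hcov : Oct 18 ⊆ Tru ∪ (Oct 18 ∩ {x : E 3 | 12 < |x 0|} ∪ (Oct 18 ∩ {x : E 3 | 12 < |x 1|} ∪
      Oct 18 ∩ {x : E 3 | 12 < |x 2|})) := by
    intro x hx
    by_cases c0 : |x 0| ≤ 12
    · by_cases c1 : |x 1| ≤ 12
      · by_cases c2 : |x 2| ≤ 12
        · exact Or.inl ⟨⟨c0, c1, c2⟩, hx⟩
        · exact Or.inr (Or.inr (Or.inr ⟨hx, not_le.1 c2⟩))
      · exact Or.inr (Or.inr (Or.inl ⟨hx, not_le.1 c1⟩))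
    · exact Or.inr (Or.inl ⟨hx, not_le.1 c0⟩)
  have h18 : volume (Oct 18) ≤ volume Tru + (volume (Oct 6) + (volume (Oct 6) + volume (Oct 6))) := by
    refine (measure_mono hcov).trans ((measure_union_le _ _).trans ?_)
    gcongr
    refine (measure_union_le _ _).trans (add_le_add (caps 0) ?_)
    exact (measure_union_le _ _).trans (add_le_add (caps 1) (caps 2))
  by_contra hlt
  push Not at hlt
  have h : volume (Oct 18) ≤ volume (Oct 17) + (volume (Oct 6) + (volume (Oct 6) + volume (Oct 6))) :=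
    h18.trans (by gcongr)
  have hf := oct_fin 1
  have hp := oct_pos
  rw [oct_vol (by norm_num : (0 : ℝ) < 18), oct_vol (by norm_num : (0 : ℝ) < 17),
    oct_vol (by norm_num : (0 : ℝ) < 6), ← add_mul, ← add_mul, ← add_mul] at h
  have h2 := (ENNReal.mul_le_mul_iff_left hp.ne' hf).1 h
  rw [← ENNReal.ofReal_add (by norm_num) (by norm_num), ← ENNReal.ofReal_add (by norm_num) (by norm_num),
    ← ENNReal.ofReal_add (by norm_num) (by norm_num), ENNReal.ofReal_le_ofReal_iff (by norm_num)] at h2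
  norm_num at h2

end Pool.Agent.N777.Aff
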